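import Pool.Agent.W16.CM.Stm

/-!
# The products of `T ^ 92` primes of `Q`
-/

open Finset

namespace Pool.Agent.W929.CMBIN

open Pool.Agent.W16.CM

lemma lower (T : ℕ) (hT : 2 ≤ T) : T ^ (5 * T ^ 92) ≤ (T ^ 98).choose (T ^ 92) := by
  set w := T ^ 92 with hw
  have hw1 : 1 ≤ w := Nat.one_le_pow _ _ (by omega)
  have h97 : T ^ 97 ≤ T ^ 98 + 1 - w := by
    have h1 : T ^ 98 = T ^ 97 * T := by ring
    have h2 : T ^ 97 * 2 ≤ T ^ 97 * T := Nat.mul_le_mul_left _ hT
    have h3 : w ≤ T ^ 97 := Nat.pow_le_pow_right (by omega) (by norm_num)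
    omega
  have h1 : (T ^ 98 + 1 - w) ^ w ≤ w.factorial * (T ^ 98).choose w := by
    have h0 := Nat.pow_le_choose (α := ℝ) w (T ^ 98)
    have hf : (0 : ℝ) < (w.factorial : ℝ) := by exact_mod_cast w.factorial_pos
    rw [div_le_iff₀ hf, mul_comm] at h0
    exact_mod_cast h0
  have h2 : w.factorial ≤ w ^ w := Nat.factorial_le_pow w
  have h3 : T ^ (97 * w) ≤ T ^ (92 * w) * (T ^ 98).choose w := by
    calc T ^ (97 * w) = (T ^ 97) ^ w := by rw [pow_mul]
      _ ≤ (T ^ 98 + 1 - w) ^ w := Nat.pow_le_pow_left h97 w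
      _ ≤ w.factorial * (T ^ 98).choose w := h1
      _ ≤ w ^ w * (T ^ 98).choose w := Nat.mul_le_mul_right _ h2
      _ = T ^ (92 * w) * (T ^ 98).choose w := by
        congr 1
        conv_lhs => rw [hw]
        rw [← hw, pow_mul]
  have h4 : T ^ (97 * w) = T ^ (92 * w) * T ^ (5 * w) := by
    rw [← pow_add]
    congr 1
    ring
  rw [h4] at h3
  exact Nat.le_of_mul_le_mul_left h3 (Nat.pow_pos (by omega))

theorem bin : St_BIN := by
  intro T Q hT hQc hQ
  set w := T ^ 92 with hw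
  have hT1 : 1 ≤ T := by omega
  have hTw : w < T ^ 98 := Nat.pow_lt_pow_right (by omega) (by norm_num)
  have hprime : ∀ r ∈ Q, r.Prime := fun r hr => (hQ r hr).1
  have hinj : Set.InjOn (fun A : Finset ℕ => ∏ r ∈ A, r) (Q.powersetCard w : Set (Finset ℕ)) := by
    intro A hA B hB hAB
    have hA' := (Finset.mem_powersetCard.mp (by exact_mod_cast hA)).1
    have hB' := (Finset.mem_powersetCard.mp (by exact_mod_cast hB)).1
    have h1 := Nat.primeFactors_prod (s := A) (fun p hp => hprime p (hA' hp))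
    have h2 := Nat.primeFactors_prod (s := B) (fun p hp => hprime p (hB' hp))
    rw [← h1, ← h2]
    exact congrArg Nat.primeFactors hAB
  have hcard : ((Q.powersetCard w).image (fun A : Finset ℕ => ∏ r ∈ A, r)).card =
      (T ^ 98).choose w := by
    rw [Finset.card_image_of_injOn hinj, Finset.card_powersetCard, hQc]
  refine ⟨(Q.powersetCard w).image (fun A : Finset ℕ => ∏ r ∈ A, r), ?_, ?_, ?_⟩
  · rw [hcard]
    exact lower T hT
  · rw [hcard]
    exact Nat.choose_le_two_pow _ _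
  · intro d hd
    obtain ⟨A, hA, rfl⟩ := Finset.mem_image.mp hd
    obtain ⟨hAQ, hAc⟩ := Finset.mem_powersetCard.mp hA
    have hodd : ∀ r ∈ Q, Odd r := by
      intro r hr
      refine (hprime r hr).odd_of_ne_two ?_
      have h1 := (hQ r hr).2.1
      have h2 : 2 ≤ T ^ 99 := hT.trans (Nat.le_self_pow (by norm_num) T)
      omega
    have hne : A ≠ Q := by
      intro h
      rw [h, hQc] at hAc
      omega
    obtain ⟨s, hsQ, hsA⟩ := Finset.exists_of_ssubset (Finset.ssubset_iff_subset_ne.mpr ⟨hAQ, hne⟩)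
    have hdvd : (∏ r ∈ A, r) ∣ ∏ r ∈ Q, r := Finset.prod_dvd_prod_of_subset _ _ _ hAQ
    refine ⟨?_, hdvd, ?_, ?_, ?_⟩
    · exact Finset.prod_induction _ Odd (fun _ _ => Odd.mul) odd_one (fun r hr => hodd r (hAQ hr))
    · have h1 : (∏ r ∈ insert s A, r) ∣ ∏ r ∈ Q, r :=
        Finset.prod_dvd_prod_of_subset _ _ _ (Finset.insert_subset hsQ hAQ)
      rw [Finset.prod_insert hsA] at h1
      have hQpos : 0 < ∏ r ∈ Q, r := Finset.prod_pos fun r hr => (hprime r hr).pos
      have hApos : 0 < ∏ r ∈ A, r := Finset.prod_pos fun r hr => (hprime r (hAQ hr)).pos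
      have h2 := Nat.le_of_dvd hQpos h1
      have h3 := (hprime s hsQ).two_le
      nlinarith
    · calc T ^ (99 * w) = (T ^ 99) ^ A.card := by rw [hAc, pow_mul]
        _ ≤ ∏ r ∈ A, r := Finset.pow_card_le_prod _ _ _ (fun r hr => (hQ r (hAQ hr)).2.1.le)
    · calc ∏ r ∈ A, r ≤ (T ^ 100) ^ A.card :=
            Finset.prod_le_pow_card _ _ _ (fun r hr => (hQ r (hAQ hr)).2.2)
        _ = T ^ (100 * w) := by rw [hAc, pow_mul]

end Pool.Agent.W929.CMBIN
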